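import Pool.Agent.Y301.NSK.BootA

/-! Project NSK, job BOOT: the other modes are as small as we like if the speeds are chosen
recursively. -/

open Set Filter Topology

set_option autoImplicit false
set_option linter.unusedSectionVars false

namespace Pool.Agent.Y301.NSK

open Pool.Agent.Y5 Pool.Agent.Y5.D Pool.Agent.Y6.N
open Pool.Agent.Y6.K (Kz lv)
open Pool.Agent.Y710.EK (exists_seq exists_rec)

section

variable {J : Type} {g o : J → ℕ} {D : Ix J → Ix J → ℝ} {c : Ix J → Ix J → Ix J → ℝ}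
  {M : ℕ → ℝ} {Lo : ℕ → Finset (Ix J)}

lemma Hf_deriv {z dz : Ix J → ℝ → ℝ} {s : Set ℝ} {t : ℝ}
    (h : ∀ a, HasDerivWithinAt (z a) (dz a t) s t) (i n : ℕ) (w : J) :
    HasDerivWithinAt (fun t => Hf o D c Lo i n w (fun a => z a t))
      (Hf' o D c Lo i n w (fun a => z a t) (fun a => dz a t)) s t := by
  unfold Hf Hf'
  refine HasDerivWithinAt.fun_add (HasDerivWithinAt.fun_neg ?_) ?_
  · exact HasDerivWithinAt.fun_sum fun b _ => (h b).const_mul (D (Sum.inr w) b)
  · refine HasDerivWithinAt.fun_sum fun p _ => ?_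
    exact ((h p.1).const_mul (c (Sum.inr w) p.1 p.2)).mul (h p.2)

lemma Hf_le (hM : ∀ m, 0 ≤ M m) (S : ℕ → ℝ) {z dz : Ix J → ℝ} (hz : ∀ a, |z a| ≤ 1)
    (hdz : ∀ a, |dz a| ≤ spd g o D M Lo S a) (i n : ℕ) (w : J) :
    |Hf o D c Lo i n w z| ≤ hb g o D c M Lo i n S w ∧
      |Hf' o D c Lo i n w z dz| ≤ hb g o D c M Lo i n S w := by
  have h0 := fun a => spd_nonneg (g := g) (o := o) (D := D) (Lo := Lo) hM S a
  constructor
  · unfold Hf hb
    refine (abs_add_le _ _).trans (add_le_add ?_ ?_)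
    · rw [abs_neg]
      refine (Finset.abs_sum_le_sum_abs _ _).trans (Finset.sum_le_sum fun b _ => ?_)
      rw [abs_mul]
      refine mul_le_mul_of_nonneg_left ?_ (abs_nonneg _)
      linarith [hz b, h0 b]
    · refine (Finset.abs_sum_le_sum_abs _ _).trans (Finset.sum_le_sum fun p _ => ?_)
      rw [abs_mul, abs_mul, mul_assoc]
      refine mul_le_mul_of_nonneg_left ?_ (abs_nonneg _)
      have e5 : |z p.1| * |z p.2| ≤ 1 := mul_le_one₀ (hz p.1) (abs_nonneg _) (hz p.2)
      linarith [h0 p.1, h0 p.2]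
  · unfold Hf' hb
    refine (abs_add_le _ _).trans (add_le_add ?_ ?_)
    · rw [abs_neg]
      refine (Finset.abs_sum_le_sum_abs _ _).trans (Finset.sum_le_sum fun b _ => ?_)
      rw [abs_mul]
      refine mul_le_mul_of_nonneg_left ?_ (abs_nonneg _)
      linarith [hdz b]
    · refine (Finset.abs_sum_le_sum_abs _ _).trans (Finset.sum_le_sum fun p _ => ?_)
      have e5 : |dz p.1| * |z p.2| ≤ spd g o D M Lo S p.1 :=
        (mul_le_of_le_one_right (abs_nonneg _) (hz p.2)).trans (hdz p.1)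
      have e6 : |z p.1| * |dz p.2| ≤ spd g o D M Lo S p.2 :=
        (mul_le_of_le_one_left (abs_nonneg _) (hz p.1)).trans (hdz p.2)
      refine (abs_add_le _ _).trans ?_
      rw [abs_mul, abs_mul, abs_mul, abs_mul, mul_assoc, mul_assoc, ← mul_add]
      refine mul_le_mul_of_nonneg_left ?_ (abs_nonneg _)
      linarith

/-- the quadratic part does not change the energy -/
lemma sum_qd (hc : ∀ j a b, c j a b = -c b a j) {z : Ix J → ℝ} (FF : Finset (Ix J))
    (hz : ∀ a, a ∉ FF → z a = 0) : ∑ a ∈ FF, z a * qd c z a = 0 := by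
  have h1 : ∀ a, qd c z a = ∑ x ∈ FF, ∑ y ∈ FF, c a x y * z x * z y := by
    intro a
    unfold qd
    rw [tsum_eq_sum (s := FF ×ˢ FF), Finset.sum_product]
    intro p hp
    rw [Finset.mem_product, not_and_or] at hp
    rcases hp with h | h
    · rw [hz _ h, mul_zero, zero_mul]
    · rw [hz _ h, mul_zero]
  have h2 : ∑ a ∈ FF, z a * qd c z a = ∑ a ∈ FF, ∑ x ∈ FF, ∑ y ∈ FF, z a * (c a x y * z x * z y) := by
    refine Finset.sum_congr rfl fun a _ => ?_
    rw [h1, Finset.mul_sum]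
    exact Finset.sum_congr rfl fun x _ => Finset.mul_sum _ _ _
  have h3 : ∑ a ∈ FF, ∑ x ∈ FF, ∑ y ∈ FF, z a * (c a x y * z x * z y) =
      ∑ a ∈ FF, ∑ x ∈ FF, ∑ y ∈ FF, z y * (c y x a * z x * z a) := by
    rw [Finset.sum_comm]
    have : ∀ x ∈ FF, ∑ a ∈ FF, ∑ y ∈ FF, z a * (c a x y * z x * z y) =
        ∑ a ∈ FF, ∑ y ∈ FF, z y * (c y x a * z x * z a) := fun x _ => Finset.sum_comm
    rw [Finset.sum_congr rfl this, Finset.sum_comm]
  have h4 : ∑ a ∈ FF, ∑ x ∈ FF, ∑ y ∈ FF, z y * (c y x a * z x * z a) =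
      -∑ a ∈ FF, ∑ x ∈ FF, ∑ y ∈ FF, z a * (c a x y * z x * z y) := by
    rw [← Finset.sum_neg_distrib]
    refine Finset.sum_congr rfl fun a _ => ?_
    rw [← Finset.sum_neg_distrib]
    refine Finset.sum_congr rfl fun x _ => ?_
    rw [← Finset.sum_neg_distrib]
    refine Finset.sum_congr rfl fun y _ => ?_
    rw [hc a x y]
    ring
  rw [h2]
  linarith

/-- the rotation does not change the energy -/
lemma sum_Kz {σ : J → J} {τ : J → ℝ} (hR : Rot o σ τ) (S : ℕ → ℝ) {z : Ix J → ℝ} (N : ℕ)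
    (F : Finset J) (hF : ∀ j, j ∈ F ↔ o j ≤ N) [DecidableEq (Ix J)] :
    ∑ a ∈ (Finset.range (N + 1)).image Sum.inl ∪ F.image Sum.inr, z a * Kz S o σ τ z a = 0 := by
  rw [Finset.sum_union]
  · have h1 : ∑ a ∈ (Finset.range (N + 1)).image (Sum.inl : ℕ → Ix J), z a * Kz S o σ τ z a = 0 := by
      refine Finset.sum_eq_zero fun a ha => ?_
      rw [Finset.mem_image] at ha
      obtain ⟨n, -, rfl⟩ := ha
      show z (Sum.inl n) * 0 = 0
      rw [mul_zero]
    rw [h1, zero_add, Finset.sum_image (fun x _ y _ h => Sum.inr_injective h)]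
    have h2 : ∑ j ∈ F, z (Sum.inr j) * Kz S o σ τ z (Sum.inr j) =
        ∑ j ∈ F, z (Sum.inr (σ j)) * Kz S o σ τ z (Sum.inr (σ j)) := by
      refine Finset.sum_nbij' σ σ (fun j hj => ?_) (fun j hj => ?_) (fun j _ => hR.inv j)
        (fun j _ => hR.inv j) (fun j _ => ?_)
      · rw [hF, hR.grp]; exact (hF j).1 hj
      · rw [hF, hR.grp]; exact (hF j).1 hj
      · rw [hR.inv]
    have h3 : ∑ j ∈ F, z (Sum.inr (σ j)) * Kz S o σ τ z (Sum.inr (σ j)) =
        -∑ j ∈ F, z (Sum.inr j) * Kz S o σ τ z (Sum.inr j) := by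
      rw [← Finset.sum_neg_distrib]
      refine Finset.sum_congr rfl fun j _ => ?_
      show z (Sum.inr (σ j)) * (S (o (σ j)) * τ (σ j) * z (Sum.inr (σ (σ j)))) =
        -(z (Sum.inr j) * (S (o j) * τ j * z (Sum.inr (σ j))))
      rw [hR.inv, hR.grp, hR.skew]
      ring
    linarith
  · rw [Finset.disjoint_left]
    intro a ha hb
    rw [Finset.mem_image] at ha hb
    obtain ⟨n, -, rfl⟩ := ha
    obtain ⟨j, -, hj⟩ := hb
    exact Sum.inr_ne_inl hj

lemma sum_lin {z : Ix J → ℝ} (FF : Finset (Ix J)) (hz : ∀ a, a ∉ FF → z a = 0) :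
    ∑ a ∈ FF, z a * lin D z a = ∑ a ∈ FF, ∑ b ∈ FF, D a b * z a * z b := by
  refine Finset.sum_congr rfl fun a _ => ?_
  unfold lin
  rw [tsum_eq_sum (s := FF) fun b hb => by rw [hz b hb, mul_zero], Finset.mul_sum]
  exact Finset.sum_congr rfl fun b _ => by ring

end

theorem t_BOOT2 : S_AVG2 → S_BOOT2 := by
  intro hAVG J g o σ τ L C' M ℓ ρ E B D c Θ β hK hR hDis hΘ hβ
  classical
  obtain ⟨Lo, hLo⟩ : ∃ Lo : ℕ → Finset (Ix J), ∀ n a, a ∈ Lo n ↔ gr g a ≤ n := by
    refine ⟨fun n => (Finset.range (n + 1)).image Sum.inl ∪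
      ((Finset.range (n + 1)).biUnion fun m => (hK.fin m).toFinset).image Sum.inr, fun n a => ?_⟩
    rw [Finset.mem_union, Finset.mem_image, Finset.mem_image]
    cases a with
    | inl k =>
      constructor
      · rintro (⟨x, hx, h⟩ | ⟨x, hx, h⟩)
        · have : x = k := Sum.inl_injective h
          rw [Finset.mem_range] at hx
          show k ≤ n
          omega
        · exact absurd h Sum.inr_ne_inl
      · intro h
        have h' : k ≤ n := h
        exact Or.inl ⟨k, Finset.mem_range.2 (by omega), rfl⟩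
    | inr j =>
      constructor
      · rintro (⟨x, hx, h⟩ | ⟨x, hx, h⟩)
        · exact absurd h.symm Sum.inr_ne_inl
        · have : x = j := Sum.inr_injective h
          rw [Finset.mem_biUnion] at hx
          obtain ⟨m, hm, hx⟩ := hx
          rw [Set.Finite.mem_toFinset, Set.mem_ofPred_eq] at hx
          rw [Finset.mem_range] at hm
          show g j ≤ n
          rw [← this, hx]
          omega
      · intro h
        have h' : g j ≤ n := h
        refine Or.inr ⟨j, Finset.mem_biUnion.2 ⟨g j, Finset.mem_range.2 (by omega), ?_⟩, rfl⟩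
        rw [Set.Finite.mem_toFinset]
        rfl
  have hM0 : ∀ m, 0 ≤ M m := fun m =>
    (abs_nonneg _).trans (hK.size (Sum.inl m) (Sum.inl 0) (Sum.inl 0))
  have hGfin : ∀ m, {j | o j = m}.Finite := fun m => (hR.fin m).subset fun j hj => le_of_eq hj
  set G : ℕ → Finset J := fun m => (hGfin m).toFinset with hG
  have hGm : ∀ m j, j ∈ G m ↔ o j = m := fun m j => (hGfin m).mem_toFinset
  set Q : ℕ → ℕ → ℝ := fun i l => ∑ w ∈ G i, ∑ j ∈ G l, KK g D c Lo w (Sum.inr j) with hQ
  have hQ0 : ∀ i l, 0 ≤ Q i l := fun i l => Finset.sum_nonneg fun w _ =>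
    Finset.sum_nonneg fun j _ => KK_nonneg _ _
  choose C hC1 hC using fun m => hAVG (Q m m) Θ (G m).card (hQ0 m m) hΘ
  obtain ⟨β0, hβ0, hβ0'⟩ : ∃ β0 : ℕ → ℝ, (∀ m, 0 < β0 m) ∧ ∀ j, β0 (o j) ≤ β (g j) := by
    refine ⟨fun m => if h : (G m).Nonempty then (G m).inf' h fun j => β (g j) else 1, fun m => ?_,
      fun j => ?_⟩
    · dsimp only
      split_ifs with h
      · rw [Finset.lt_inf'_iff]
        exact fun j _ => hβ _
      · exact one_pos
    · have hj : j ∈ G (o j) := (hGm _ _).2 rfl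
      dsimp only
      rw [dif_pos ⟨j, hj⟩]
      exact Finset.inf'_le _ hj
  obtain ⟨b, hbpos, hbβ, hbsum⟩ := exists_seq C (fun l => ∑ i ∈ Finset.range l, Q i l) β0 hC1
    (fun l => Finset.sum_nonneg fun i _ => hQ0 i l) hβ0
  have hC0 : ∀ m, 0 < C m := fun m => zero_lt_one.trans_le (hC1 m)
  set ζ : ℕ → ℝ := fun m => b m / (8 * C m) with hζ
  have hζ0 : ∀ m, 0 < ζ m := fun m => div_pos (hbpos m) (by have := hC0 m; positivity)
  have hthr : ∀ m, ∃ n : ℕ, (∀ w ∈ G m, g w + 1 ≤ n) ∧ ∀ k, n ≤ k → ∀ w ∈ G m,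
      M (g w) ≤ ζ m * ρ k := by
    intro m
    obtain ⟨n1, hn1⟩ := Filter.eventually_atTop.1
      (hDis.ρinf.eventually_ge_atTop ((∑ w ∈ G m, M (g w)) / ζ m))
    refine ⟨max n1 (∑ w ∈ G m, (g w + 1)), fun w hw => ?_, fun k hk w hw => ?_⟩
    · exact (Finset.single_le_sum (f := fun w => g w + 1) (fun _ _ => Nat.zero_le _) hw).trans
        (le_max_right _ _)
    · have h1 := hn1 k ((le_max_left _ _).trans hk)
      rw [div_le_iff₀ (hζ0 m)] at h1
      have h2 := Finset.single_le_sum (f := fun w => M (g w)) (fun w _ => hM0 _) hw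
      linarith
  choose n hn1 hn2 using hthr
  set hm : ℕ → (ℕ → ℝ) → ℝ := fun m S => ∑ w ∈ G m, hb g o D c M Lo m (n m) S w with hhm
  obtain ⟨S, hS⟩ := exists_rec (fun m s => max 1 (8 * C m * hm m s / b m))
  have hS1 : ∀ m, 1 ≤ S m := fun m => by rw [hS]; exact le_max_left _ _
  have hSh : ∀ m, 8 * C m * hm m S / b m ≤ S m := by
    intro m
    have h1 : hm m (fun i => if i < m then S i else 0) = hm m S := by
      refine Finset.sum_congr rfl fun w hw => ?_
      exact hb_congr (fun l hl => if_pos hl) w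
    conv_rhs => rw [hS]
    rw [← h1]
    exact le_max_right _ _
  have hhm0 : ∀ m, 0 ≤ hm m S := fun m => Finset.sum_nonneg fun w _ => hb_nonneg hM0 _ _ S w
  refine ⟨S, hS1, fun N z hz => ?_⟩
  -- the modes of the levels `≤ N`
  set F : Finset J := (hR.fin N).toFinset with hF
  have hFm : ∀ j, j ∈ F ↔ o j ≤ N := fun j => (hR.fin N).mem_toFinset
  set FF : Finset (Ix J) := (Finset.range (N + 1)).image Sum.inl ∪ F.image Sum.inr with hFF
  have hFFlv : ∀ a ∈ FF, lv o a ≤ N := by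
    intro a ha
    rw [hFF, Finset.mem_union, Finset.mem_image, Finset.mem_image] at ha
    rcases ha with ⟨x, hx, rfl⟩ | ⟨x, hx, rfl⟩
    · exact Nat.lt_succ_iff.1 (Finset.mem_range.1 hx)
    · exact (hFm x).1 hx
  have hFFm : ∀ a, a ∉ FF → ∀ t, z a t = 0 := by
    intro a ha t
    apply hz.zero
    by_contra h
    apply ha
    cases a with
    | inl n =>
      exact Finset.mem_union_left _ (Finset.mem_image_of_mem _ (Finset.mem_range.2
        (Nat.lt_succ_of_le (not_lt.1 h))))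
    | inr j =>
      exact Finset.mem_union_right _ (Finset.mem_image_of_mem _ ((hFm j).2 (show o j ≤ N from not_lt.1 h)))
  have hFm' : ∀ j ∉ F, ∀ t, z (Sum.inr j) t = 0 := fun j hj t =>
    hz.zero (Sum.inr j) (not_le.1 fun h => hj ((hFm j).2 h)) t
  have hsumm : ∀ t, Summable (fun a => z a t ^ 2) := fun t =>
    summable_of_ne_finset_zero (s := FF) fun a ha => by rw [hFFm a ha t]; norm_num
  have hone : ∀ a, ∀ t ∈ Icc (0 : ℝ) Θ, |z a t| ≤ 1 := by
    intro a t ht
    have h1 : z a t ^ 2 ≤ 1 :=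
      ((hsumm t).le_tsum a fun i _ => sq_nonneg _).trans (hz.energy t ht)
    exact abs_le_one_iff_mul_self_le_one.2 (by rwa [← sq])
  obtain ⟨dz, hdz⟩ : ∃ dz : Ix J → ℝ → ℝ, ∀ a t, dz a t = if lv o a ≤ N then
    Kz S o σ τ (fun a => z a t) a - lin D (fun a => z a t) a + qd c (fun a => z a t) a else 0 :=
    ⟨_, fun _ _ => rfl⟩
  have hder : ∀ a, ∀ t ∈ Icc (0 : ℝ) Θ, HasDerivWithinAt (z a) (dz a t) (Icc 0 Θ) t := by
    intro a t ht
    by_cases ha : lv o a ≤ N
    · rw [hdz, if_pos ha]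
      exact hz.deriv a ha t ht
    · rw [hdz, if_neg ha]
      have h1 : z a = fun _ => 0 := funext fun s => hz.zero a (not_le.1 ha) s
      rw [h1]
      exact hasDerivWithinAt_const _ _ _
  have hτ1 : ∀ j, |τ j| ≤ 1 := by
    intro j
    have h := hR.unit j
    exact abs_le_one_iff_mul_self_le_one.2 (by rw [← sq, h])
  have hqd1 : ∀ a, ∀ t ∈ Icc (0 : ℝ) Θ, |qd c (fun a => z a t) a| ≤ M (gr g a) := by
    intro a t ht
    refine (hK.quad a _ (hsumm t)).trans ?_
    exact mul_le_of_le_one_right (hM0 _) (hz.energy t ht)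
  have hdzb : ∀ a, ∀ t ∈ Icc (0 : ℝ) Θ, |dz a t| ≤ spd g o D M Lo S a := by
    intro a t ht
    rw [hdz]
    split_ifs with ha
    · have h1 := hqd1 a t ht
      have h2 := lin_le hDis.blk hLo (z := fun a => z a t) (fun a => hone a t ht) a
      have h3 : |Kz S o σ τ (fun a => z a t) a| ≤ sa o S a := by
        cases a with
        | inl n =>
          show |(0 : ℝ)| ≤ 0
          rw [abs_zero]
        | inr j =>
          show |S (o j) * τ j * z (Sum.inr (σ j)) t| ≤ |S (o j)|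
          rw [abs_mul, abs_mul, mul_assoc]
          refine mul_le_of_le_one_right (abs_nonneg _) ?_
          exact mul_le_one₀ (hτ1 j) (abs_nonneg _) (hone _ t ht)
      unfold spd
      refine (abs_add_le _ _).trans (add_le_add ((abs_sub _ _).trans (add_le_add h3 h2)) h1)
    · rw [abs_zero]
      exact spd_nonneg hM0 S a
  have hcont : ∀ a, ContinuousOn (z a) (Icc 0 Θ) := fun a t ht => (hder a t ht).continuousWithinAt
  -- the energy
  obtain ⟨Y, hY⟩ : ∃ Y : ℝ → ℝ, ∀ t, Y t = ∑ a ∈ FF, z a t ^ 2 := ⟨_, fun _ => rfl⟩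
  obtain ⟨Y', hY'⟩ : ∃ Y' : ℝ → ℝ, ∀ t, Y' t = ∑ a ∈ FF, 2 * (z a t * dz a t) :=
    ⟨_, fun _ => rfl⟩
  have hYd : ∀ t ∈ Icc (0 : ℝ) Θ, HasDerivWithinAt Y (Y' t) (Icc 0 Θ) t := by
    intro t ht
    have h1 : Y = fun t => ∑ a ∈ FF, z a t * z a t := funext fun t => by
      rw [hY]
      exact Finset.sum_congr rfl fun a _ => sq _
    rw [h1, hY']
    refine HasDerivWithinAt.fun_sum fun a _ => ?_
    have h2 := (hder a t ht).mul (hder a t ht)
    have h3 : dz a t * z a t + z a t * dz a t = 2 * (z a t * dz a t) := by ring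
    rw [h3] at h2
    exact h2
  have hYneg : ∀ t ∈ Icc (0 : ℝ) Θ, ∑ a ∈ FF, ρ (gr g a) * z a t ^ 2 ≤ -Y' t / 2 := by
    intro t ht
    have h1 := hDis.coer FF (fun a => z a t)
    have h2 := sum_lin (D := D) FF (fun a ha => hFFm a ha t)
    have h3 := sum_qd hK.anti FF (fun a ha => hFFm a ha t)
    have h4 := sum_Kz hR S (z := fun a => z a t) N F hFm
    rw [← hFF] at h4
    have h5 : Y' t = 2 * (∑ a ∈ FF, z a t * Kz S o σ τ (fun a => z a t) a -
        ∑ a ∈ FF, z a t * lin D (fun a => z a t) a + ∑ a ∈ FF, z a t * qd c (fun a => z a t) a) := by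
      rw [hY', ← Finset.sum_sub_distrib, ← Finset.sum_add_distrib, Finset.mul_sum]
      refine Finset.sum_congr rfl fun a ha => ?_
      rw [hdz, if_pos (hFFlv a ha)]
      ring
    rw [h2, h3, h4] at h5
    rw [h5]
    linarith
  have hY1 : ∀ t ∈ Icc (0 : ℝ) Θ, 0 ≤ Y t ∧ Y t ≤ 1 := by
    intro t ht
    rw [hY]
    refine ⟨Finset.sum_nonneg fun _ _ => sq_nonneg _, ?_⟩
    have h1 : ∑' a, z a t ^ 2 = ∑ a ∈ FF, z a t ^ 2 := tsum_eq_sum fun a ha => by
      rw [hFFm a ha t]; norm_num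
    rw [← h1]
    exact hz.energy t ht
  have hY0 : ∀ t ∈ Icc (0 : ℝ) Θ, Y' t ≤ 0 := by
    intro t ht
    have h1 := hYneg t ht
    have h2 : 0 ≤ ∑ a ∈ FF, ρ (gr g a) * z a t ^ 2 :=
      Finset.sum_nonneg fun a _ => mul_nonneg (hDis.ρ0 _) (sq_nonneg _)
    linarith
  have hfin := exit F (fun j => z (Sum.inr j)) (fun j => b (o j)) (fun j => hbpos _)
    (fun j => hcont _) (fun j => hz.init.2.2 j) (fun j hj t _ => by
      show |z (Sum.inr j) t| ≤ b (o j)
      rw [hFm' j hj t, abs_zero]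
      exact (hbpos _).le) ?_
  · exact fun j t ht => (hfin j t ht).trans ((hbβ _).trans (hβ0' j))
  intro θ hθ hgood j hj t ht
  have hsub : Icc 0 θ ⊆ Icc (0 : ℝ) Θ := Icc_subset_Icc_right hθ.2
  obtain ⟨m, hmdef⟩ : ∃ m, m = o j := ⟨_, rfl⟩
  have hmN : m ≤ N := by rw [hmdef]; exact (hFm j).1 hj
  obtain ⟨η, hη⟩ : ∃ η : ℝ, η = ∑ l ∈ Finset.Ioc m N, (∑ i ∈ Finset.range l, Q i l) * b l :=
    ⟨_, rfl⟩
  have hη0 : 0 ≤ η := by
    rw [hη]
    exact Finset.sum_nonneg fun l _ => mul_nonneg (Finset.sum_nonneg fun i _ => hQ0 i l) (hbpos l).le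
  -- the error
  have herr : ∀ w ∈ G m, ∀ s ∈ Icc (0 : ℝ) θ,
      |-(lin D (fun a => z a s) (Sum.inr w)) + qd c (fun a => z a s) (Sum.inr w) -
        Hf o D c Lo m (n m) w (fun a => z a s)| ≤
      Q m m * ∑ i ∈ G m, |z (Sum.inr i) s| + η + ζ m * -Y' s := by
    intro w hw s hs
    have hsΘ := hsub hs
    have h1 := err hK hDis.blk hLo (z := fun a => z a s) (fun a => hone a s hsΘ) F FF
      (fun j hj => hFm' j hj s) (fun a ha => hFFm a ha s) (o := o) w m (n m) (hn1 m w hw)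
    refine h1.trans (add_le_add ?_ ?_)
    · have h2 : ∑ i ∈ F, (if m ≤ o i then KK g D c Lo w (Sum.inr i) * |z (Sum.inr i) s| else 0) =
          ∑ l ∈ Finset.Icc m N, ∑ i ∈ G l, KK g D c Lo w (Sum.inr i) * |z (Sum.inr i) s| := by
        rw [← Finset.sum_filter, ← Finset.sum_fiberwise_of_maps_to (s := F.filter fun i => m ≤ o i)
          (t := Finset.Icc m N) (g := o) (fun i hi => by
            rw [Finset.mem_filter] at hi
            exact Finset.mem_Icc.2 ⟨hi.2, (hFm i).1 hi.1⟩)]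
        refine Finset.sum_congr rfl fun l hl => ?_
        rw [Finset.mem_Icc] at hl
        refine Finset.sum_congr ?_ fun _ _ => rfl
        ext i
        rw [Finset.mem_filter, Finset.mem_filter, hFm, hGm]
        constructor
        · exact fun h => h.2
        · rintro rfl
          exact ⟨⟨hl.2, hl.1⟩, rfl⟩
      rw [h2, ← Finset.Ioc_insert_left hmN, Finset.sum_insert (by simp)]
      refine add_le_add ?_ ?_
      · rw [Finset.mul_sum]
        refine Finset.sum_le_sum fun i hi => mul_le_mul_of_nonneg_right ?_ (abs_nonneg _)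
        have e1 : KK g D c Lo w (Sum.inr i) ≤ ∑ j ∈ G m, KK g D c Lo w (Sum.inr j) :=
          Finset.single_le_sum (f := fun j => KK g D c Lo w (Sum.inr j))
            (fun j _ => KK_nonneg _ _) hi
        have e2 : ∑ j ∈ G m, KK g D c Lo w (Sum.inr j) ≤ Q m m :=
          Finset.single_le_sum (f := fun w => ∑ j ∈ G m, KK g D c Lo w (Sum.inr j))
            (fun w _ => Finset.sum_nonneg fun j _ => KK_nonneg _ _) hw
        exact e1.trans e2
      · rw [hη]
        refine Finset.sum_le_sum fun l hl => ?_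
        rw [Finset.mem_Ioc] at hl
        have e1 : ∑ i ∈ G l, KK g D c Lo w (Sum.inr i) * |z (Sum.inr i) s| ≤
            (∑ i ∈ G l, KK g D c Lo w (Sum.inr i)) * b l := by
          rw [Finset.sum_mul]
          refine Finset.sum_le_sum fun i hi => mul_le_mul_of_nonneg_left ?_ (KK_nonneg _ _)
          have := hgood i s hs
          rwa [(hGm l i).1 hi] at this
        have e2 : ∑ j ∈ G l, KK g D c Lo w (Sum.inr j) ≤ Q m l :=
          Finset.single_le_sum (f := fun w => ∑ j ∈ G l, KK g D c Lo w (Sum.inr j))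
            (fun w _ => Finset.sum_nonneg fun j _ => KK_nonneg _ _) hw
        have e3 : Q m l ≤ ∑ i ∈ Finset.range l, Q i l :=
          Finset.single_le_sum (f := fun i => Q i l) (fun i _ => hQ0 i l)
            (Finset.mem_range.2 hl.1)
        exact e1.trans (mul_le_mul_of_nonneg_right (e2.trans e3) (hbpos l).le)
    · have h3 := hYneg s hsΘ
      have h4 : M (g w) * ∑ a ∈ FF, (if n m ≤ gr g a then z a s ^ 2 else 0) ≤
          ζ m * ∑ a ∈ FF, ρ (gr g a) * z a s ^ 2 := by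
        rw [Finset.mul_sum, Finset.mul_sum]
        refine Finset.sum_le_sum fun a _ => ?_
        split_ifs with h
        · rw [← mul_assoc]
          exact mul_le_mul_of_nonneg_right (hn2 m _ h w hw) (sq_nonneg _)
        · rw [mul_zero]
          exact mul_nonneg (hζ0 m).le (mul_nonneg (hDis.ρ0 _) (sq_nonneg _))
      have h5 := mul_le_mul_of_nonneg_left h3 (hζ0 m).le
      linarith
  have hbnd := hC m (G m) (fun i => ⟨σ i, (hGm m _).2 ((hR.grp _).trans ((hGm m _).1 i.2))⟩)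
    (fun i => τ i) (S m) θ (hm m S) η (ζ m) (fun i s => z (Sum.inr i) s)
    (fun i s => Hf o D c Lo m (n m) (i : J) (fun a => z a s))
    (fun i s => Hf' o D c Lo m (n m) (i : J) (fun a => z a s) (fun a => dz a s))
    (fun i s => -(lin D (fun a => z a s) (Sum.inr (i : J))) + qd c (fun a => z a s) (Sum.inr (i : J)) -
        Hf o D c Lo m (n m) (i : J) (fun a => z a s)) Y Y'
    (by rw [Fintype.card_coe]) (fun i => Subtype.ext (hR.inv _)) (fun i => hR.skew _)
    (fun i => hR.unit _) (hS1 m) hθ.1 hθ.2 (hhm0 m) hη0 (hζ0 m).le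
    (by
      intro i s hs
      have hoi : o (i : J) = m := (hGm m _).1 i.2
      have h1 := (hz.deriv (Sum.inr (i : J)) (by show o (i : J) ≤ N; rw [hoi]; exact hmN) s
        (hsub hs)).mono hsub
      refine h1.congr_deriv ?_
      have hSi : S (o (i : J)) = S m := congrArg S hoi
      show S (o (i : J)) * τ i * z (Sum.inr (σ i)) s - lin D (fun a => z a s) (Sum.inr (i : J)) +
        qd c (fun a => z a s) (Sum.inr (i : J)) = _
      rw [hSi]
      ring)
    (by
      intro i s hs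
      exact Hf_deriv (fun a => (hder a s (hsub hs)).mono hsub) m (n m) (i : J))
    (by
      intro i s hs
      have hi : hb g o D c M Lo m (n m) S (i : J) ≤ hm m S :=
        Finset.single_le_sum (f := fun w => hb g o D c M Lo m (n m) S w)
          (fun w _ => hb_nonneg hM0 _ _ S w) i.2
      have h1 := Hf_le (c := c) hM0 S (z := fun a => z a s) (dz := fun a => dz a s)
        (fun a => hone a s (hsub hs)) (fun a => hdzb a s (hsub hs)) m (n m) (i : J)
      exact ⟨h1.1.trans hi, h1.2.trans hi⟩)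
    (by
      intro s hs
      have hsΘ := hsub hs
      exact ⟨(hYd s hsΘ).mono hsub, hY0 s hsΘ, hY1 s hsΘ⟩)
    (by
      intro i s hs
      have h1 := herr (i : J) i.2 s hs
      rw [Finset.sum_coe_sort (G m) (fun i => |z (Sum.inr i) s|)]
      exact h1)
    (fun i => hz.init.2.2 i) ⟨j, (hGm m j).2 hmdef.symm⟩ t ht
  refine hbnd.trans ?_
  have h1 : C m * (hm m S / S m) ≤ b m / 8 := by
    have hSpos : 0 < S m := zero_lt_one.trans_le (hS1 m)
    have h2 := hSh m
    rw [div_le_iff₀ (hbpos m)] at h2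
    rw [← mul_div_assoc, div_le_div_iff₀ hSpos (by norm_num)]
    linarith
  have h2 : C m * η ≤ b m / 8 := by
    rw [hη]
    exact hbsum m N
  have h3 : C m * ζ m = b m / 8 := by
    have := (hC0 m).ne'
    rw [hζ]
    field_simp
  rw [mul_add, mul_add]
  have := hbpos m
  show _ ≤ b (o j) / 2
  rw [← hmdef]
  linarith

end Pool.Agent.Y301.NSK
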