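import Pool.Agent.Y6.N.Stm
import Pool.Agent.Y710.EK.Boot

/-! Project NSK, job BOOT: preparations. -/

open Set Filter Topology

set_option autoImplicit false
set_option linter.unusedSectionVars false

namespace Pool.Agent.Y301.NSK

open Pool.Agent.Y5 Pool.Agent.Y5.D Pool.Agent.Y6.N
open Pool.Agent.Y6.K (Kz lv)
open Pool.Agent.Y710.EK (exists_seq exists_rec)

/-- first exit -/
theorem exit {J : Type} {Θ : ℝ} (F : Finset J) (f : J → ℝ → ℝ) (B : J → ℝ)
    (hB : ∀ j, 0 < B j)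
    (hc : ∀ j, ContinuousOn (f j) (Icc 0 Θ)) (h0 : ∀ j, f j 0 = 0)
    (hout : ∀ j ∉ F, ∀ t ∈ Icc (0 : ℝ) Θ, |f j t| ≤ B j)
    (hboot : ∀ θ ∈ Icc (0 : ℝ) Θ, (∀ j, ∀ t ∈ Icc 0 θ, |f j t| ≤ B j) →
      ∀ j ∈ F, ∀ t ∈ Icc 0 θ, |f j t| ≤ B j / 2) :
    ∀ j, ∀ t ∈ Icc (0 : ℝ) Θ, |f j t| ≤ B j := by
  classical
  by_contra hcon
  push Not at hcon
  obtain ⟨j₀, t₀, ht₀, hj₀⟩ := hcon
  have hj₀F : j₀ ∈ F := by
    by_contra h
    exact absurd (hout j₀ h t₀ ht₀) (not_le.2 hj₀)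
  set E : Set ℝ := ⋃ j ∈ F, (Icc (0 : ℝ) Θ ∩ (fun t => |f j t|) ⁻¹' Ici (B j)) with hE
  have hEc : IsClosed E := by
    refine F.finite_toSet.isClosed_biUnion fun j _ => ?_
    exact (hc j).abs.preimage_isClosed_of_isClosed isClosed_Icc isClosed_Ici
  have hEs : E ⊆ Icc (0 : ℝ) Θ := by
    intro t ht
    rw [hE, mem_iUnion₂] at ht
    obtain ⟨j, _, hj⟩ := ht
    exact hj.1
  have hEn : E.Nonempty := by
    refine ⟨t₀, ?_⟩
    rw [hE, mem_iUnion₂]
    exact ⟨j₀, hj₀F, ht₀, hj₀.le⟩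
  obtain ⟨θ, hθE, hθmin⟩ := (isCompact_Icc.of_isClosed_subset hEc hEs).exists_isLeast hEn
  have hθ := hEs hθE
  rw [hE, mem_iUnion₂] at hθE
  obtain ⟨j₁, hj₁, -, hj₁'⟩ := hθE
  have hθpos : 0 < θ := by
    rcases hθ.1.lt_or_eq with h | h
    · exact h
    · exfalso
      rw [← h] at hj₁'
      have h1 : B j₁ ≤ |f j₁ 0| := hj₁'
      rw [h0, abs_zero] at h1
      linarith [hB j₁]
  have hlt : ∀ t ∈ Ico (0 : ℝ) θ, ∀ j, |f j t| ≤ B j := by
    intro t ht j
    have ht60 : t ∈ Icc (0 : ℝ) Θ := ⟨ht.1, ht.2.le.trans hθ.2⟩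
    by_cases hj : j ∈ F
    · by_contra h
      have : t ∈ E := by
        rw [hE, mem_iUnion₂]
        exact ⟨j, hj, ht60, (not_le.1 h).le⟩
      exact absurd (hθmin this) (not_le.2 ht.2)
    · exact hout j hj t ht60
  have hhalf : ∀ t ∈ Ico (0 : ℝ) θ, |f j₁ t| ≤ B j₁ / 2 := by
    intro t ht
    have ht60 : t ∈ Icc (0 : ℝ) Θ := ⟨ht.1, ht.2.le.trans hθ.2⟩
    exact hboot t ht60 (fun j s hs => hlt s ⟨hs.1, hs.2.trans_lt ht.2⟩ j) j₁ hj₁ t ⟨ht.1, le_rfl⟩
  have h1 : ∀ᶠ t in 𝓝[Icc (0 : ℝ) Θ] θ, B j₁ / 2 < |f j₁ t| := by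
    refine ((hc j₁).abs θ hθ).eventually (lt_mem_nhds ?_)
    have : B j₁ ≤ |f j₁ θ| := hj₁'
    linarith [hB j₁]
  have hne : (𝓝[Ico (0 : ℝ) θ] θ).NeBot := right_nhdsWithin_Ico_neBot hθpos
  have hsub : Ico (0 : ℝ) θ ⊆ Icc 0 Θ := fun t ht => ⟨ht.1, ht.2.le.trans hθ.2⟩
  obtain ⟨t, ht1, ht2⟩ := ((h1.filter_mono (nhdsWithin_mono θ hsub)).and self_mem_nhdsWithin).exists
  exact absurd (hhalf t ht2) (not_le.2 ht1)

lemma sum_le_of_van {ι : Type*} [DecidableEq ι] (s t : Finset ι) (f : ι → ℝ) (h0 : ∀ i, 0 ≤ f i)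
    (hv : ∀ i ∈ s, i ∉ t → f i = 0) : ∑ i ∈ s, f i ≤ ∑ i ∈ t, f i := by
  calc ∑ i ∈ s, f i ≤ ∑ i ∈ s ∪ t, f i :=
        Finset.sum_le_sum_of_subset_of_nonneg Finset.subset_union_left fun i _ _ => h0 i
    _ = ∑ i ∈ t, f i := by
        symm
        refine Finset.sum_subset Finset.subset_union_right fun i hi hit => hv i ?_ hit
        exact (Finset.mem_union.1 hi).resolve_right hit

section

variable {J : Type} (g o : J → ℕ) (D : Ix J → Ix J → ℝ) (c : Ix J → Ix J → Ix J → ℝ)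
  (M : ℕ → ℝ) (Lo : ℕ → Finset (Ix J))

/-- bound for the linear term -/
noncomputable def lb (a : Ix J) : ℝ := ∑ b ∈ Lo (gr g a), |D a b|

/-- speed of the rotation of a mode -/
noncomputable def sa (S : ℕ → ℝ) : Ix J → ℝ
  | Sum.inl _ => 0
  | Sum.inr j => |S (o j)|

/-- bound for the derivative of a mode -/
noncomputable def spd (S : ℕ → ℝ) (a : Ix J) : ℝ := sa o S a + lb g D Lo a + M (gr g a)

/-- interaction of `w` with `a` -/
noncomputable def KK (w : J) (a : Ix J) : ℝ := |D (Sum.inr w) a| +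
  ∑ b ∈ Lo (max (g w) (gr g a) + 1), (|c (Sum.inr w) a b| + |c (Sum.inr w) b a|)

open Classical in
/-- main modes and other modes of the levels `< i`, groups `≤ n` -/
noncomputable def lows (i n : ℕ) : Finset (Ix J) := (Lo n).filter fun a => ∀ j, a = Sum.inr j → o j < i

/-- the part of the right-hand side with the low modes -/
noncomputable def Hf (i n : ℕ) (w : J) (z : Ix J → ℝ) : ℝ :=
  -(∑ b ∈ lows o Lo i n, D (Sum.inr w) b * z b) +
    ∑ p ∈ lows o Lo i n ×ˢ lows o Lo i n, c (Sum.inr w) p.1 p.2 * z p.1 * z p.2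

/-- its derivative -/
noncomputable def Hf' (i n : ℕ) (w : J) (z dz : Ix J → ℝ) : ℝ :=
  -(∑ b ∈ lows o Lo i n, D (Sum.inr w) b * dz b) +
    ∑ p ∈ lows o Lo i n ×ˢ lows o Lo i n, (c (Sum.inr w) p.1 p.2 * dz p.1 * z p.2 +
      c (Sum.inr w) p.1 p.2 * z p.1 * dz p.2)

/-- bound for `Hf` and `Hf'` -/
noncomputable def hb (i n : ℕ) (S : ℕ → ℝ) (w : J) : ℝ :=
  ∑ b ∈ lows o Lo i n, |D (Sum.inr w) b| * (1 + spd g o D M Lo S b) +
    ∑ p ∈ lows o Lo i n ×ˢ lows o Lo i n, |c (Sum.inr w) p.1 p.2| *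
      (1 + spd g o D M Lo S p.1 + spd g o D M Lo S p.2)

variable {g o D c M Lo}

lemma sa_nonneg (S : ℕ → ℝ) (a : Ix J) : 0 ≤ sa o S a := by
  cases a with
  | inl n => exact le_rfl
  | inr j => exact abs_nonneg _

lemma lb_nonneg (a : Ix J) : 0 ≤ lb g D Lo a := Finset.sum_nonneg fun _ _ => abs_nonneg _

lemma spd_nonneg (hM : ∀ m, 0 ≤ M m) (S : ℕ → ℝ) (a : Ix J) : 0 ≤ spd g o D M Lo S a :=
  add_nonneg (add_nonneg (sa_nonneg S a) (lb_nonneg a)) (hM _)

lemma KK_nonneg (w : J) (a : Ix J) : 0 ≤ KK g D c Lo w a :=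
  add_nonneg (abs_nonneg _) (Finset.sum_nonneg fun _ _ => add_nonneg (abs_nonneg _) (abs_nonneg _))

lemma hb_nonneg (hM : ∀ m, 0 ≤ M m) (i n : ℕ) (S : ℕ → ℝ) (w : J) :
    0 ≤ hb g o D c M Lo i n S w := by
  have := fun a => spd_nonneg (g := g) (o := o) (D := D) (Lo := Lo) hM S a
  refine add_nonneg (Finset.sum_nonneg fun b _ => mul_nonneg (abs_nonneg _) ?_)
    (Finset.sum_nonneg fun p _ => mul_nonneg (abs_nonneg _) ?_)
  · linarith [this b]
  · linarith [this p.1, this p.2]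

lemma mem_lows {i n : ℕ} {a : Ix J} : a ∈ lows o Lo i n ↔
    a ∈ Lo n ∧ ∀ j, a = Sum.inr j → o j < i := by
  simp only [lows, Finset.mem_filter]

lemma spd_congr {i n : ℕ} {S S' : ℕ → ℝ} (h : ∀ l < i, S l = S' l) {a : Ix J}
    (ha : a ∈ lows o Lo i n) : spd g o D M Lo S a = spd g o D M Lo S' a := by
  unfold spd
  congr 2
  cases a with
  | inl n => rfl
  | inr j =>
    show |S (o j)| = |S' (o j)|
    rw [h _ ((mem_lows.1 ha).2 j rfl)]

lemma hb_congr {i n : ℕ} {S S' : ℕ → ℝ} (h : ∀ l < i, S l = S' l) (w : J) :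
    hb g o D c M Lo i n S w = hb g o D c M Lo i n S' w := by
  unfold hb
  congr 1
  · exact Finset.sum_congr rfl fun b hb => by rw [spd_congr h hb]
  · refine Finset.sum_congr rfl fun p hp => ?_
    rw [Finset.mem_product] at hp
    rw [spd_congr h hp.1, spd_congr h hp.2]

/-- the linear term is a finite sum -/
lemma lin_eq (hD : ∀ a b, D a b ≠ 0 → gr g a = gr g b) (hLo : ∀ n a, a ∈ Lo n ↔ gr g a ≤ n)
    (z : Ix J → ℝ) {a : Ix J} {n : ℕ} (h : gr g a ≤ n) : lin D z a = ∑ b ∈ Lo n, D a b * z b := by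
  unfold lin
  refine tsum_eq_sum fun b hb => ?_
  have : D a b = 0 := by
    by_contra h0
    apply hb
    rw [hLo, ← hD a b h0]
    exact h
  rw [this, zero_mul]

lemma lin_le (hD : ∀ a b, D a b ≠ 0 → gr g a = gr g b) (hLo : ∀ n a, a ∈ Lo n ↔ gr g a ≤ n)
    {z : Ix J → ℝ} (hz : ∀ a, |z a| ≤ 1) (a : Ix J) : |lin D z a| ≤ lb g D Lo a := by
  rw [lin_eq hD hLo z (le_refl (gr g a))]
  refine (Finset.abs_sum_le_sum_abs _ _).trans (Finset.sum_le_sum fun b _ => ?_)
  rw [abs_mul]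
  exact mul_le_of_le_one_right (abs_nonneg _) (hz b)

/-- distant interactions -/
lemma far {L C : ℕ → ℝ} {B : ℕ → ℕ → ℝ} (hK : Kern g L C B M c)
    (hLo : ∀ n a, a ∈ Lo n ↔ gr g a ≤ n) {z : Ix J → ℝ} (FF : Finset (Ix J))
    (hz : ∀ a, a ∉ FF → z a = 0) (w : Ix J) (n : ℕ) (hn : gr g w + 1 ≤ n) :
    |qd c z w - ∑ p ∈ Lo n ×ˢ Lo n, c w p.1 p.2 * z p.1 * z p.2| ≤
      2 * (M (gr g w) * ∑ a ∈ FF, if n ≤ gr g a then z a ^ 2 else 0) := by
  classical
  set z1 : Ix J → ℝ := fun a => if n ≤ gr g a then z a else 0 with hz1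
  set z2 : Ix J → ℝ := fun a => if gr g a = n then z a else 0 with hz2
  have hs : ∀ y : Ix J → ℝ, (∀ a, a ∉ FF → y a = 0) →
      Summable (fun p : Ix J × Ix J => c w p.1 p.2 * y p.1 * y p.2) := by
    intro y hy
    refine summable_of_ne_finset_zero (s := FF ×ˢ FF) fun p hp => ?_
    rw [Finset.mem_product, not_and_or] at hp
    rcases hp with h | h
    · rw [hy _ h, mul_zero, zero_mul]
    · rw [hy _ h, mul_zero]
  have hv1 : ∀ a, a ∉ FF → z1 a = 0 := fun a ha => by rw [hz1]; simp only; rw [hz a ha, ite_self]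
  have hv2 : ∀ a, a ∉ FF → z2 a = 0 := fun a ha => by rw [hz2]; simp only; rw [hz a ha, ite_self]
  have e0 : ∑ p ∈ Lo n ×ˢ Lo n, c w p.1 p.2 * z p.1 * z p.2 =
      ∑' p : Ix J × Ix J, if p ∈ Lo n ×ˢ Lo n then c w p.1 p.2 * z p.1 * z p.2 else 0 := by
    rw [tsum_eq_sum (s := Lo n ×ˢ Lo n) fun p hp => if_neg hp]
    exact Finset.sum_congr rfl fun p hp => (if_pos hp).symm
  have hsI : Summable (fun p : Ix J × Ix J =>
      if p ∈ Lo n ×ˢ Lo n then c w p.1 p.2 * z p.1 * z p.2 else 0) :=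
    summable_of_ne_finset_zero (s := Lo n ×ˢ Lo n) fun p hp => if_neg hp
  have e1 : qd c z w - ∑ p ∈ Lo n ×ˢ Lo n, c w p.1 p.2 * z p.1 * z p.2 = qd c z1 w - qd c z2 w := by
    rw [e0]
    unfold qd
    rw [← (hs z hz).tsum_sub hsI, ← (hs z1 hv1).tsum_sub (hs z2 hv2)]
    refine tsum_congr fun p => ?_
    obtain ⟨a, b⟩ := p
    simp only [Finset.mem_product, hLo, hz1, hz2]
    by_cases hc : c w a b = 0
    · rw [hc]; simp
    have hnear := hK.near w a b hc
    have h1 := hnear.2.1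
    have h2 := hnear.2.2
    by_cases ha : gr g a ≤ n
    · by_cases hb : gr g b ≤ n
      · rw [if_pos ⟨ha, hb⟩, sub_self]
        by_cases ha' : gr g a = n
        · by_cases hb' : gr g b = n
          · rw [if_pos ha'.ge, if_pos hb'.ge, if_pos ha', if_pos hb', sub_self]
          · rw [if_neg (show ¬ n ≤ gr g b by omega), if_neg hb', mul_zero, mul_zero, sub_self]
        · rw [if_neg (show ¬ n ≤ gr g a by omega), if_neg ha', mul_zero, zero_mul, zero_mul, sub_self]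
      · rw [if_neg (fun h => hb h.2), sub_zero]
        have hb2 : n ≤ gr g b := by omega
        have ha2 : n ≤ gr g a := by omega
        have hb3 : gr g b ≠ n := by omega
        rw [if_pos ha2, if_pos hb2, if_neg hb3, mul_zero, sub_zero]
    · rw [if_neg (fun h => ha h.1), sub_zero]
      have ha2 : n ≤ gr g a := by omega
      have hb2 : n ≤ gr g b := by omega
      have ha3 : gr g a ≠ n := by omega
      rw [if_pos ha2, if_pos hb2, if_neg ha3, mul_zero, zero_mul, sub_zero]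
  have hq : ∀ y : Ix J → ℝ, (∀ a, a ∉ FF → y a = 0) →
      (∀ a, y a ^ 2 ≤ if n ≤ gr g a then z a ^ 2 else 0) →
      |qd c y w| ≤ M (gr g w) * ∑ a ∈ FF, if n ≤ gr g a then z a ^ 2 else 0 := by
    intro y hy hyz
    have hsy : Summable (fun a => y a ^ 2) :=
      summable_of_ne_finset_zero (s := FF) fun a ha => by rw [hy a ha]; norm_num
    refine (hK.quad w y hsy).trans (mul_le_mul_of_nonneg_left ?_ ?_)
    · rw [tsum_eq_sum (s := FF) fun a ha => by rw [hy a ha]; norm_num]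
      exact Finset.sum_le_sum fun a _ => hyz a
    · exact (abs_nonneg _).trans (hK.size w w w)
  rw [e1]
  refine (abs_sub _ _).trans ?_
  have h1 := hq z1 hv1 fun a => by
    simp only [hz1]
    split_ifs with h
    · exact le_rfl
    · norm_num
  have h2 := hq z2 hv2 fun a => by
    simp only [hz2]
    split_ifs with h h'
    · exact le_rfl
    · omega
    · exact (by norm_num : (0:ℝ)^2 ≤ 0).trans (sq_nonneg _)
    · norm_num
  linarith

/-- the right-hand side minus the part with the low modes -/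
lemma err {L C : ℕ → ℝ} {B : ℕ → ℕ → ℝ} (hK : Kern g L C B M c)
    (hD : ∀ a b, D a b ≠ 0 → gr g a = gr g b) (hLo : ∀ n a, a ∈ Lo n ↔ gr g a ≤ n)
    {z : Ix J → ℝ} (hz1 : ∀ a, |z a| ≤ 1) (F : Finset J) (FF : Finset (Ix J))
    (hzF : ∀ j, j ∉ F → z (Sum.inr j) = 0) (hz : ∀ a, a ∉ FF → z a = 0) (w : J) (i n : ℕ)
    (hn : g w + 1 ≤ n) :
    |-(lin D z (Sum.inr w)) + qd c z (Sum.inr w) - Hf o D c Lo i n w z| ≤
      ∑ j ∈ F, (if i ≤ o j then KK g D c Lo w (Sum.inr j) * |z (Sum.inr j)| else 0) +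
      2 * (M (g w) * ∑ a ∈ FF, if n ≤ gr g a then z a ^ 2 else 0) := by
  classical
  have hfar := far hK hLo FF hz (Sum.inr w) n hn
  have e1 := lin_eq hD hLo z (a := Sum.inr w) (n := n) (show g w ≤ n by omega)
  set P : Ix J → Prop := fun a => ∀ j, a = Sum.inr j → o j < i with hP
  have hlows : lows o Lo i n = (Lo n).filter P := rfl
  have e2 : ∑ b ∈ Lo n, D (Sum.inr w) b * z b = ∑ b ∈ lows o Lo i n, D (Sum.inr w) b * z b +
      ∑ b ∈ (Lo n).filter (fun b => ¬ P b), D (Sum.inr w) b * z b := by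
    rw [hlows]
    exact (Finset.sum_filter_add_sum_filter_not _ _ _).symm
  have e3 : ∑ p ∈ Lo n ×ˢ Lo n, c (Sum.inr w) p.1 p.2 * z p.1 * z p.2 =
      ∑ p ∈ lows o Lo i n ×ˢ lows o Lo i n, c (Sum.inr w) p.1 p.2 * z p.1 * z p.2 +
      ∑ p ∈ (Lo n ×ˢ Lo n).filter (fun p => ¬ (P p.1 ∧ P p.2)),
        c (Sum.inr w) p.1 p.2 * z p.1 * z p.2 := by
    rw [hlows, ← Finset.filter_product]
    exact (Finset.sum_filter_add_sum_filter_not _ _ _).symm
  -- the three errors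
  have b1 : |∑ b ∈ (Lo n).filter (fun b => ¬ P b), D (Sum.inr w) b * z b| ≤
      ∑ b ∈ Lo n, if P b then 0 else |D (Sum.inr w) b| * |z b| := by
    refine (Finset.abs_sum_le_sum_abs _ _).trans ?_
    rw [Finset.sum_filter]
    refine Finset.sum_le_sum fun b _ => ?_
    by_cases h : P b
    · rw [if_neg (not_not.2 h), if_pos h]
    · rw [if_pos h, if_neg h, abs_mul]
  have b2 : |∑ p ∈ (Lo n ×ˢ Lo n).filter (fun p => ¬ (P p.1 ∧ P p.2)),
        c (Sum.inr w) p.1 p.2 * z p.1 * z p.2| ≤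
      ∑ a ∈ Lo n, (if P a then 0 else |z a| * ∑ b ∈ Lo n,
        (|c (Sum.inr w) a b| + |c (Sum.inr w) b a|)) := by
    refine (Finset.abs_sum_le_sum_abs _ _).trans ?_
    rw [Finset.sum_filter]
    have h1 : ∀ p ∈ Lo n ×ˢ Lo n, (if ¬ (P p.1 ∧ P p.2) then
        |c (Sum.inr w) p.1 p.2 * z p.1 * z p.2| else 0) ≤
        (if P p.1 then 0 else |z p.1| * |c (Sum.inr w) p.1 p.2|) +
        (if P p.2 then 0 else |z p.2| * |c (Sum.inr w) p.1 p.2|) := by
      intro p _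
      have hc0 := abs_nonneg (c (Sum.inr w) p.1 p.2)
      have u1 := hz1 p.1
      have u2 := hz1 p.2
      have v1 := abs_nonneg (z p.1)
      have v2 := abs_nonneg (z p.2)
      have w1 := mul_nonneg v1 hc0
      have w2 := mul_nonneg v2 hc0
      rw [abs_mul, abs_mul]
      have k1 : |c (Sum.inr w) p.1 p.2| * |z p.1| * |z p.2| ≤ |z p.1| * |c (Sum.inr w) p.1 p.2| := by
        rw [mul_comm (|c (Sum.inr w) p.1 p.2|)]
        exact mul_le_of_le_one_right w1 u2
      have k2 : |c (Sum.inr w) p.1 p.2| * |z p.1| * |z p.2| ≤ |z p.2| * |c (Sum.inr w) p.1 p.2| := by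
        calc |c (Sum.inr w) p.1 p.2| * |z p.1| * |z p.2| =
              |z p.1| * (|z p.2| * |c (Sum.inr w) p.1 p.2|) := by ring
          _ ≤ |z p.2| * |c (Sum.inr w) p.1 p.2| := mul_le_of_le_one_left w2 u1
      by_cases h1 : P p.1
      · by_cases h2 : P p.2
        · rw [if_neg (not_not.2 ⟨h1, h2⟩), if_pos h1, if_pos h2, add_zero]
        · rw [if_pos (fun h => h2 h.2), if_pos h1, if_neg h2, zero_add]
          exact k2
      · rw [if_pos (fun h => h1 h.1), if_neg h1]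
        have : 0 ≤ (if P p.2 then 0 else |z p.2| * |c (Sum.inr w) p.1 p.2|) := by
          split_ifs
          · exact le_rfl
          · exact w2
        linarith
    refine (Finset.sum_le_sum h1).trans (le_of_eq ?_)
    rw [Finset.sum_add_distrib, Finset.sum_product, Finset.sum_product_right, ← Finset.sum_add_distrib]
    refine Finset.sum_congr rfl fun a _ => ?_
    by_cases h : P a
    · simp only [if_pos h, Finset.sum_const_zero, add_zero]
    · simp only [if_neg h]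
      rw [← Finset.mul_sum, ← Finset.mul_sum, ← mul_add, ← Finset.sum_add_distrib]
  have b3 : ∀ a, ∑ b ∈ Lo n, (|c (Sum.inr w) a b| + |c (Sum.inr w) b a|) ≤
      ∑ b ∈ Lo (max (g w) (gr g a) + 1), (|c (Sum.inr w) a b| + |c (Sum.inr w) b a|) := by
    intro a
    refine sum_le_of_van _ _ _ (fun b => add_nonneg (abs_nonneg _) (abs_nonneg _)) fun b _ hb => ?_
    rw [hLo] at hb
    have c1 : c (Sum.inr w) a b = 0 := by
      by_contra h
      exact hb (hK.near _ _ _ h).2.2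
    have c2 : c (Sum.inr w) b a = 0 := by
      by_contra h
      exact hb (hK.near _ _ _ h).2.1
    rw [c1, c2, abs_zero, add_zero]
  have b4 : ∑ b ∈ Lo n, (if P b then 0 else |D (Sum.inr w) b| * |z b|) +
      ∑ a ∈ Lo n, (if P a then 0 else |z a| * ∑ b ∈ Lo n,
        (|c (Sum.inr w) a b| + |c (Sum.inr w) b a|)) ≤
      ∑ j ∈ F, (if i ≤ o j then KK g D c Lo w (Sum.inr j) * |z (Sum.inr j)| else 0) := by
    rw [← Finset.sum_add_distrib]
    have h1 : ∀ a ∈ Lo n, (if P a then 0 else |D (Sum.inr w) a| * |z a|) +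
        (if P a then 0 else |z a| * ∑ b ∈ Lo n, (|c (Sum.inr w) a b| + |c (Sum.inr w) b a|)) ≤
        if P a then 0 else KK g D c Lo w a * |z a| := by
      intro a _
      by_cases h : P a
      · simp only [if_pos h, add_zero]; exact le_rfl
      · simp only [if_neg h]
        unfold KK
        have := mul_le_mul_of_nonneg_left (b3 a) (abs_nonneg (z a))
        nlinarith
    refine (Finset.sum_le_sum h1).trans ?_
    refine (sum_le_of_van (Lo n) (F.image Sum.inr) _ (fun a => ?_) fun a _ ha => ?_).trans ?_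
    · split_ifs
      · exact le_rfl
      · exact mul_nonneg (KK_nonneg _ _) (abs_nonneg _)
    · by_cases h : P a
      · rw [if_pos h]
      · rw [if_neg h]
        rw [hP] at h
        simp only [not_forall] at h
        obtain ⟨j, hj, -⟩ := h
        have hjF : j ∉ F := fun hj' => ha (by rw [hj]; exact Finset.mem_image_of_mem _ hj')
        rw [hj, hzF j hjF, abs_zero, mul_zero]
    · rw [Finset.sum_image (fun x _ y _ h => Sum.inr_injective h)]
      refine Finset.sum_le_sum fun j _ => ?_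
      by_cases h : i ≤ o j
      · rw [if_pos h]
        split_ifs
        · exact mul_nonneg (KK_nonneg _ _) (abs_nonneg _)
        · exact le_rfl
      · have : P (Sum.inr j) := fun j' hj' => by
          have : j = j' := Sum.inr_injective hj'
          rw [← this]
          omega
        rw [if_neg h, if_pos this]
  have e4 : -(lin D z (Sum.inr w)) + qd c z (Sum.inr w) - Hf o D c Lo i n w z =
      -(∑ b ∈ (Lo n).filter (fun b => ¬ P b), D (Sum.inr w) b * z b) +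
      (∑ p ∈ (Lo n ×ˢ Lo n).filter (fun p => ¬ (P p.1 ∧ P p.2)),
        c (Sum.inr w) p.1 p.2 * z p.1 * z p.2) +
      (qd c z (Sum.inr w) - ∑ p ∈ Lo n ×ˢ Lo n, c (Sum.inr w) p.1 p.2 * z p.1 * z p.2) := by
    unfold Hf
    rw [e1, e2, e3]
    ring
  rw [e4]
  refine (abs_add_le _ _).trans (add_le_add ((abs_add_le _ _).trans ?_) hfar)
  rw [abs_neg]
  linarith

end

end Pool.Agent.Y301.NSK
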